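import Pool.Agent.H71.Maps

/-!
Both halves of the second question have a negative answer: tight substantial maps of the real
projective plane into `ℝ³` whose image is not a convex hypersurface, of the complex projective
plane into `ℝ⁵` whose image is not a convex hypersurface, and of the complex projective plane
into `ℝ⁴` whose image is not convex.
-/

set_option autoImplicit false

namespace Pool.Agent.Results.MP_bb5b69_gt.ConeProjections

open Pool.Agent.Helper775.Tight Pool.Agent.H71

theorem result :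
    (∃ (_ : ChartedSpace (EuclideanSpace ℝ (Fin (2 * 1))) (PP ℝ))
        (f : PP ℝ → EuclideanSpace ℝ (Fin (2 * 1 + 1))),
      IsTamePlane 1 (PP ℝ) ∧ Continuous f ∧ Substantial f ∧ TightMap f ∧ CechTightMap f ∧
        ¬ IsConvexHypersurface (Set.range f)) ∧
    (∃ (_ : ChartedSpace (EuclideanSpace ℝ (Fin (2 * 2))) (PP ℂ))
        (f : PP ℂ → EuclideanSpace ℝ (Fin (2 * 2 + 1))),
      IsTamePlane 2 (PP ℂ) ∧ Continuous f ∧ Substantial f ∧ TightMap f ∧ CechTightMap f ∧
        ¬ IsConvexHypersurface (Set.range f)) ∧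
    (∃ (_ : ChartedSpace (EuclideanSpace ℝ (Fin (2 * 2))) (PP ℂ))
        (f : PP ℂ → EuclideanSpace ℝ (Fin (2 * 2))),
      IsTamePlane 2 (PP ℂ) ∧ Continuous f ∧ Substantial f ∧ TightMap f ∧ CechTightMap f ∧
        ¬ Convex ℝ (Set.range f)) := by
  refine ⟨⟨ppCharted (kap ℝ 1 (by simp)), fR, plane_facts iotaR _, fR_cont, fR_subst,
      fR_tight.1, fR_tight.2, fR_not⟩,
    ⟨ppCharted (kap ℂ 2 Complex.finrank_real_complex), fC', plane_facts iotaC _, fC'_cont,
      fC'_subst, fC'_tight.1, fC'_tight.2, fC'_not⟩,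
    ⟨ppCharted (kap ℂ 2 Complex.finrank_real_complex), fC, plane_facts iotaC _, fC_cont,
      fC_subst, fC_tight.1, fC_tight.2, fC_not⟩⟩

end Pool.Agent.Results.MP_bb5b69_gt.ConeProjections
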